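import Mathlib

/-!
# The posterior upper probability is completely alternating

For a random closed set `X` and a likelihood `L` the posterior upper probability
`v_y(A) = s(A) / (s(A) + t(A))` is `n`-alternating for every `n`, and the same is true in the
`ε`-contamination model.  Hence `N₁ = N₂ = ∞`.
-/

namespace Pool.Agent.Results.MP_bae362_pr.CompletelyAlternating

open MeasureTheory Set Filter Topology
open scoped ENNReal NNReal

/-! ### Completely monotone functions on a semilattice -/

section CM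

variable {α : Type*} [SemilatticeSup α]

/-- The difference operator `w ↦ (c ↦ w c - w (c ⊔ a))`. -/
def D (a : α) (w : α → ℝ) : α → ℝ := fun c => w c - w (c ⊔ a)

/-- Monotonicity of order `n`: all iterated differences up to order `n` are nonnegative. -/
def CM : ℕ → (α → ℝ) → Prop
  | 0, w => ∀ c, 0 ≤ w c
  | n + 1, w => (∀ c, 0 ≤ w c) ∧ ∀ a, CM n (D a w)

lemma CM.nonneg : ∀ {n : ℕ} {w : α → ℝ}, CM n w → ∀ c, 0 ≤ w c
  | 0, _, h => h
  | _ + 1, _, h => h.1

lemma CM.pred : ∀ {n : ℕ} {w : α → ℝ}, CM (n + 1) w → CM n w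
  | 0, _, h => h.1
  | _ + 1, _, h => ⟨h.1, fun a => (h.2 a).pred⟩

lemma CM.shift : ∀ {n : ℕ} {w : α → ℝ}, CM n w → ∀ a, CM n (fun c => w (c ⊔ a))
  | 0, _, h, a => fun c => h (c ⊔ a)
  | n + 1, w, h, a => ⟨fun c => h.1 _, fun b => by
      have e : D b (fun c => w (c ⊔ a)) = fun c => (D b w) (c ⊔ a) := by
        funext c
        simp only [D]
        rw [sup_right_comm]
      rw [e]
      exact (h.2 b).shift a⟩

lemma CM.add : ∀ {n : ℕ} {w₁ w₂ : α → ℝ}, CM n w₁ → CM n w₂ → CM n (fun c => w₁ c + w₂ c)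
  | 0, _, _, h₁, h₂ => fun c => add_nonneg (h₁ c) (h₂ c)
  | n + 1, w₁, w₂, h₁, h₂ => ⟨fun c => add_nonneg (h₁.1 c) (h₂.1 c), fun a => by
      have e : D a (fun c => w₁ c + w₂ c) = fun c => D a w₁ c + D a w₂ c := by
        funext c; simp only [D]; ring
      rw [e]
      exact (h₁.2 a).add (h₂.2 a)⟩

lemma CM.mul : ∀ {n : ℕ} {w₁ w₂ : α → ℝ}, CM n w₁ → CM n w₂ → CM n (fun c => w₁ c * w₂ c)
  | 0, _, _, h₁, h₂ => fun c => mul_nonneg (h₁ c) (h₂ c)
  | n + 1, w₁, w₂, h₁, h₂ => ⟨fun c => mul_nonneg (h₁.1 c) (h₂.1 c), fun a => by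
      have e : D a (fun c => w₁ c * w₂ c)
          = fun c => D a w₁ c * w₂ c + w₁ (c ⊔ a) * D a w₂ c := by
        funext c; simp only [D]; ring
      rw [e]
      exact ((h₁.2 a).mul h₂.pred).add ((h₁.shift a).pred.mul (h₂.2 a))⟩

lemma CM.inv {q : α → ℝ} (hq : ∀ c, 0 < q c)
    (h : ∀ n a, CM n (fun c => q (c ⊔ a) - q c)) : ∀ n, CM n (fun c => (q c)⁻¹)
  | 0 => fun c => (inv_pos.2 (hq c)).le
  | n + 1 => ⟨fun c => (inv_pos.2 (hq c)).le, fun a => by
      have e : D a (fun c => (q c)⁻¹)
          = fun c => ((q (c ⊔ a) - q c) * (q c)⁻¹) * (q (c ⊔ a))⁻¹ := by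
        funext c
        simp only [D]
        have h1 := (hq c).ne'
        have h2 := (hq (c ⊔ a)).ne'
        field_simp
      rw [e]
      have hI := CM.inv hq h n
      exact ((h n a).mul hI).mul (hI.shift a)⟩

lemma CM.limit : ∀ {n : ℕ} {w : ℕ → α → ℝ} {w' : α → ℝ}, (∀ k, CM n (w k)) →
    (∀ c, Tendsto (fun k => w k c) atTop (𝓝 (w' c))) → CM n w'
  | 0, _, _, h, ht => fun c => ge_of_tendsto' (ht c) fun k => h k c
  | _ + 1, w, _, h, ht => ⟨fun c => ge_of_tendsto' (ht c) fun k => (h k).1 c, fun a =>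
      CM.limit (w := fun k => D a (w k)) (fun k => (h k).2 a) fun c => (ht c).sub (ht (c ⊔ a))⟩

lemma CM.integral {Ω : Type*} [MeasurableSpace Ω] {P : Measure Ω} :
    ∀ {n : ℕ} {w : Ω → α → ℝ}, (∀ᵐ ω ∂P, CM n (w ω)) →
      (∀ c, Integrable (fun ω => w ω c) P) → CM n (fun c => ∫ ω, w ω c ∂P)
  | 0, _, h, _ => fun c => integral_nonneg_of_ae (h.mono fun ω hω => hω c)
  | n + 1, w, h, hi => ⟨fun c => integral_nonneg_of_ae (h.mono fun ω hω => hω.1 c), fun a => by
      have e : D a (fun c => ∫ ω, w ω c ∂P) = fun c => ∫ ω, D a (w ω) c ∂P := by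
        funext c
        simp only [D]
        rw [integral_sub (hi c) (hi (c ⊔ a))]
      rw [e]
      exact CM.integral (h.mono fun ω hω => hω.2 a) fun c => (hi c).sub (hi (c ⊔ a))⟩

/-- Positive parts of a constant minus a maxitive function. -/
lemma CM_max {g : α → ℝ} (hg : ∀ c a, g (c ⊔ a) = max (g c) (g a)) :
    ∀ (n : ℕ) (κ : ℝ), CM n (fun c => max (κ - g c) 0)
  | 0, κ => fun c => le_max_right _ _
  | n + 1, κ => ⟨fun c => le_max_right _ _, fun a => by
      have e : D a (fun c => max (κ - g c) 0) = fun c => max (min κ (g a) - g c) 0 := by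
        funext c
        simp only [D]
        rw [hg]
        rcases le_total κ (g a) with h1 | h1 <;> rcases le_total (g c) (g a) with h2 | h2 <;>
        rcases le_total κ (g c) with h3 | h3 <;>
        simp only [min_eq_left, min_eq_right, max_eq_left, max_eq_right, h1, h2, sub_nonneg,
          sub_nonpos, h3, sub_zero, sub_self] <;> linarith
      rw [e]
      exact CM_max hg n _⟩

/-- The alternating sum over all subsets of a finite set is nonnegative. -/
lemma sum_nonneg_of_CM [OrderBot α] {ι : Type*} [DecidableEq ι] (a : ι → α) (T : Finset ι) :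
    ∀ (w : α → ℝ) (c : α), CM T.card w →
      0 ≤ ∑ J ∈ T.powerset, (-1 : ℝ) ^ J.card * w (c ⊔ J.sup a) := by
  induction T using Finset.induction_on with
  | empty =>
    intro w c h
    simpa using h.nonneg c
  | insert i T hi ih =>
    intro w c h
    rw [Finset.card_insert_of_notMem hi] at h
    rw [Finset.sum_powerset_insert hi, ← Finset.sum_add_distrib]
    have := ih (D (a i) w) c (h.2 (a i))
    refine this.trans (le_of_eq (Finset.sum_congr rfl fun J hJ => ?_))
    have hiJ : i ∉ J := fun h' => hi (Finset.mem_powerset.1 hJ h')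
    rw [Finset.card_insert_of_notMem hiJ, Finset.sup_insert]
    simp only [D]
    have e : c ⊔ J.sup a ⊔ a i = c ⊔ (a i ⊔ J.sup a) := by
      rw [sup_assoc, sup_comm (J.sup a)]
    rw [e]
    ring

end CM

/-! ### Alternating set functions -/

variable {E : Type*} [MeasurableSpace E]

open scoped Classical in
/-- `v` is `n`-alternating (on the measurable sets). -/
def IsAlternating (n : ℕ) (v : Set E → ℝ) : Prop :=
  ∀ A : Fin n → Set E, (∀ i, MeasurableSet (A i)) →
    v (⋂ i, A i) ≤ ∑ J ∈ (Finset.univ : Finset (Finset (Fin n))).filter (fun J => J.Nonempty),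
      (-1 : ℝ) ^ (J.card + 1) * v (⋃ i ∈ J, A i)

/-- The lattice of measurable sets. -/
abbrev MS (E : Type*) [MeasurableSpace E] : Type _ := Subtype (MeasurableSet : Set E → Prop)

lemma coe_sup' (a b : MS E) : ((a ⊔ b : MS E) : Set E) = (a : Set E) ∪ b := rfl

lemma coe_finset_sup {ι : Type*} [DecidableEq ι] (a : ι → MS E) (J : Finset ι) :
    ((J.sup a : MS E) : Set E) = ⋃ i ∈ J, (a i : Set E) := by
  induction J using Finset.induction_on with
  | empty => simp
  | insert i T hi ih =>
    rw [Finset.sup_insert, coe_sup', ih, Finset.set_biUnion_insert]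

lemma isAlternating_of_CM {v : Set E → ℝ} {n : ℕ} (hn : 1 ≤ n)
    (h : CM n (fun c : MS E => 1 - v c)) : IsAlternating n v := by
  classical
  intro A hA
  set a : Fin n → MS E := fun i => ⟨A i, hA i⟩ with ha
  set c : MS E := ⟨⋂ i, A i, MeasurableSet.iInter hA⟩ with hc
  have h0 := sum_nonneg_of_CM a (Finset.univ : Finset (Fin n)) (fun c : MS E => 1 - v c) c
    (by simpa using h)
  have hpow : (Finset.univ : Finset (Fin n)).powerset = (Finset.univ : Finset (Finset (Fin n))) := by
    simp
  rw [hpow] at h0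
  rw [← Finset.sum_filter_add_sum_filter_not Finset.univ (fun J : Finset (Fin n) => J.Nonempty)]
    at h0
  have hemp : (Finset.univ : Finset (Finset (Fin n))).filter (fun J => ¬ J.Nonempty) = {∅} := by
    ext J
    simp [Finset.not_nonempty_iff_eq_empty]
  rw [hemp, Finset.sum_singleton] at h0
  -- the total alternating sum of ones
  have hone : ∑ J ∈ (Finset.univ : Finset (Finset (Fin n))).filter (fun J => J.Nonempty),
      (-1 : ℝ) ^ J.card = -1 := by
    have hne : (Finset.univ : Finset (Fin n)).Nonempty := ⟨⟨0, hn⟩, Finset.mem_univ _⟩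
    have h1 := Finset.sum_powerset_neg_one_pow_card_of_nonempty hne
    rw [hpow] at h1
    have h2 : (∑ J : Finset (Fin n), (-1 : ℝ) ^ J.card) = 0 := by
      have := congrArg (fun z : ℤ => (z : ℝ)) h1
      push_cast at this
      exact this
    rw [← Finset.sum_filter_add_sum_filter_not Finset.univ (fun J : Finset (Fin n) => J.Nonempty),
      hemp, Finset.sum_singleton] at h2
    simp only [Finset.card_empty, pow_zero] at h2
    linarith
  have hterm : ∀ J ∈ (Finset.univ : Finset (Finset (Fin n))).filter (fun J => J.Nonempty),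
      (-1 : ℝ) ^ J.card * (1 - v ((c ⊔ J.sup a : MS E) : Set E))
        = (-1 : ℝ) ^ J.card + (-1 : ℝ) ^ (J.card + 1) * v (⋃ i ∈ J, A i) := by
    intro J hJ
    have hJ' : J.Nonempty := (Finset.mem_filter.1 hJ).2
    have e : ((c ⊔ J.sup a : MS E) : Set E) = ⋃ i ∈ J, A i := by
      rw [coe_sup', coe_finset_sup]
      refine union_eq_right.2 ?_
      obtain ⟨i, hi⟩ := hJ'
      exact (iInter_subset A i).trans (subset_biUnion_of_mem (u := fun i => (a i : Set E)) hi)
    rw [e]
    ring
  rw [Finset.sum_congr rfl hterm, Finset.sum_add_distrib, hone] at h0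
  have hc0 : v ((c ⊔ (∅ : Finset (Fin n)).sup a : MS E) : Set E) = v (⋂ i, A i) := by
    rw [Finset.sup_empty, sup_bot_eq]
  rw [hc0] at h0
  simp only [Finset.card_empty, pow_zero, one_mul] at h0
  linarith

/-- Indicators of missing a set. -/
lemma CM_ind (Z : Set E) : ∀ (n : ℕ) {k : ℝ}, 0 ≤ k →
    CM n (fun c : MS E => open scoped Classical in if (Z ∩ (c : Set E)).Nonempty then 0 else k)
  | 0, k, hk => fun c => by
      classical
      simp only
      split_ifs
      · exact le_rfl
      · exact hk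
  | n + 1, k, hk => by
      classical
      refine ⟨fun c => ?_, fun a => ?_⟩
      · simp only
        split_ifs
        · exact le_rfl
        · exact hk
      · have e : D a (fun c : MS E => if (Z ∩ (c : Set E)).Nonempty then 0 else k)
            = fun c : MS E => if (Z ∩ (c : Set E)).Nonempty then 0 else
              (if (Z ∩ (a : Set E)).Nonempty then k else 0) := by
          funext c
          simp only [D, coe_sup', inter_union_distrib_left, union_nonempty]
          by_cases h1 : (Z ∩ (c : Set E)).Nonempty <;> by_cases h2 : (Z ∩ (a : Set E)).Nonempty <;>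
            simp [h1, h2]
        rw [e]
        refine CM_ind Z n ?_
        split_ifs
        · exact hk
        · exact le_rfl

/-- Indicators of the zero set of a function that vanishes on a join iff it vanishes on both. -/
lemma CM_zero {α : Type*} [SemilatticeSup α] {σ : α → ℝ≥0∞}
    (hσ : ∀ c a, σ (c ⊔ a) = 0 ↔ σ c = 0 ∧ σ a = 0) : ∀ (n : ℕ) {k : ℝ}, 0 ≤ k →
    CM n (fun c => open scoped Classical in if σ c = 0 then k else 0)
  | 0, k, hk => fun c => by
      simp only
      split_ifs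
      · exact hk
      · exact le_rfl
  | n + 1, k, hk => by
      classical
      refine ⟨fun c => ?_, fun a => ?_⟩
      · simp only
        split_ifs
        · exact hk
        · exact le_rfl
      · have e : D a (fun c => if σ c = 0 then k else 0)
            = fun c => if σ c = 0 then (if σ a = 0 then 0 else k) else 0 := by
          funext c
          simp only [D, hσ]
          by_cases h1 : σ c = 0 <;> by_cases h2 : σ a = 0 <;> simp [h1, h2]
        rw [e]
        refine CM_zero hσ n ?_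
        split_ifs
        · exact le_rfl
        · exact hk

/-! ### The ratio of an avoidance functional and the mean of a maxitive family -/

lemma core {Ω : Type*} [MeasurableSpace Ω] {P : Measure Ω} [IsFiniteMeasure P]
    (Z : Ω → Set E) (k : Ω → ℝ≥0∞) (g : Ω → MS E → ℝ≥0∞)
    (hk : AEMeasurable k P) (hkfin : ∫⁻ ω, k ω ∂P ≠ ∞)
    (hhit : ∀ c : MS E, NullMeasurableSet {ω | (Z ω ∩ (c : Set E)).Nonempty} P)
    (hg : ∀ c, AEMeasurable (fun ω => g ω c) P)
    (hgmax : ∀ᵐ ω ∂P, ∀ c a, g ω (c ⊔ a) = max (g ω c) (g ω a))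
    (hpos : ∀ c, ∫⁻ ω, g ω c ∂P ≠ 0) (n : ℕ) :
    CM n (fun c : MS E => ((∫⁻ ω, (open scoped Classical in
      if (Z ω ∩ (c : Set E)).Nonempty then 0 else k ω) ∂P) / (∫⁻ ω, g ω c ∂P)).toReal) := by
  classical
  -- the numerator
  set τE : MS E → ℝ≥0∞ := fun c => ∫⁻ ω, (if (Z ω ∩ (c : Set E)).Nonempty then 0 else k ω) ∂P
    with hτE
  have hτind : ∀ c : MS E, (fun ω => if (Z ω ∩ (c : Set E)).Nonempty then (0 : ℝ≥0∞) else k ω)
      = ({ω | (Z ω ∩ (c : Set E)).Nonempty}ᶜ).indicator k := by
    intro c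
    funext ω
    by_cases h : (Z ω ∩ (c : Set E)).Nonempty
    · rw [if_pos h, indicator_of_notMem]
      simpa using h
    · rw [if_neg h, indicator_of_mem]
      exact h
  have hτm : ∀ c : MS E, AEMeasurable
      (fun ω => if (Z ω ∩ (c : Set E)).Nonempty then (0 : ℝ≥0∞) else k ω) P := by
    intro c
    rw [hτind c]
    exact hk.indicator₀ (hhit c).compl
  have hτle : ∀ c : MS E, τE c ≤ ∫⁻ ω, k ω ∂P := by
    intro c
    refine lintegral_mono fun ω => ?_
    simp only
    split_ifs
    · exact zero_le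
    · exact le_rfl
  have hτfin : ∀ c : MS E, τE c ≠ ∞ := fun c => ne_top_of_le_ne_top hkfin (hτle c)
  have hτCM : ∀ n, CM n (fun c : MS E => (τE c).toReal) := by
    intro n
    have e : (fun c : MS E => (τE c).toReal)
        = fun c : MS E => ∫ ω, (if (Z ω ∩ (c : Set E)).Nonempty then (0 : ℝ) else (k ω).toReal) ∂P := by
      funext c
      rw [hτE]
      simp only
      rw [← integral_toReal (hτm c)]
      · refine integral_congr_ae (Eventually.of_forall fun ω => ?_)
        simp only
        split_ifs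
        · rfl
        · rfl
      · refine (ae_lt_top' (hτm c) (hτfin c))
    rw [e]
    refine CM.integral (Eventually.of_forall fun ω => CM_ind (Z ω) n ENNReal.toReal_nonneg) ?_
    intro c
    have h1 := integrable_toReal_of_lintegral_ne_top (hτm c) (hτfin c)
    refine h1.congr (Eventually.of_forall fun ω => ?_)
    simp only
    split_ifs
    · rfl
    · rfl
  -- the truncated denominator
  have hgN : ∀ (N : ℕ) (c : MS E), AEMeasurable (fun ω => min (g ω c) (N : ℝ≥0∞)) P :=
    fun N c => (hg c).min aemeasurable_const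
  have hfinN : ∀ (N : ℕ) (c : MS E), ∫⁻ ω, min (g ω c) (N : ℝ≥0∞) ∂P ≠ ∞ := by
    intro N c
    refine ne_top_of_le_ne_top ?_ (lintegral_mono fun ω => min_le_right (g ω c) (N : ℝ≥0∞))
    rw [lintegral_const]
    exact ENNReal.mul_ne_top (ENNReal.natCast_ne_top N) (measure_ne_top P univ)
  have hposN : ∀ (N : ℕ) (c : MS E), ∫⁻ ω, min (g ω c) ((N + 1 : ℕ) : ℝ≥0∞) ∂P ≠ 0 := by
    intro N c h
    rw [lintegral_eq_zero_iff' (hgN (N + 1) c)] at h
    apply hpos c
    rw [lintegral_eq_zero_iff' (hg c)]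
    refine h.mono fun ω hω => ?_
    simp only [Pi.zero_apply] at hω ⊢
    rcases min_eq_iff.1 hω with h1 | h1
    · exact h1.1
    · exfalso
      have := h1.1
      simp at this
  have hqCM : ∀ (N : ℕ) (n : ℕ) (a : MS E), CM n (fun c : MS E =>
      (∫⁻ ω, min (g ω (c ⊔ a)) (N : ℝ≥0∞) ∂P).toReal
        - (∫⁻ ω, min (g ω c) (N : ℝ≥0∞) ∂P).toReal) := by
    intro N n a
    have hint : ∀ c : MS E, Integrable (fun ω => (min (g ω c) (N : ℝ≥0∞)).toReal) P :=
      fun c => integrable_toReal_of_lintegral_ne_top (hgN N c) (hfinN N c)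
    have e : (fun c : MS E => (∫⁻ ω, min (g ω (c ⊔ a)) (N : ℝ≥0∞) ∂P).toReal
        - (∫⁻ ω, min (g ω c) (N : ℝ≥0∞) ∂P).toReal)
        = fun c : MS E => ∫ ω, max ((min (g ω a) (N : ℝ≥0∞)).toReal
          - (min (g ω c) (N : ℝ≥0∞)).toReal) 0 ∂P := by
      funext c
      rw [← integral_toReal (hgN N (c ⊔ a)) (ae_lt_top' (hgN N (c ⊔ a)) (hfinN N (c ⊔ a))),
        ← integral_toReal (hgN N c) (ae_lt_top' (hgN N c) (hfinN N c)),
        ← integral_sub (hint (c ⊔ a)) (hint c)]
      refine integral_congr_ae (hgmax.mono fun ω hω => ?_)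
      simp only
      rw [hω c a, min_max_distrib_right, ENNReal.toReal_max]
      · rw [← max_sub_sub_right, sub_self, max_comm]
      · exact ne_top_of_le_ne_top (ENNReal.natCast_ne_top N) (min_le_right _ _)
      · exact ne_top_of_le_ne_top (ENNReal.natCast_ne_top N) (min_le_right _ _)
    rw [e]
    refine CM.integral (hgmax.mono fun ω hω => ?_) ?_
    · refine CM_max (g := fun c => (min (g ω c) (N : ℝ≥0∞)).toReal) (fun c a => ?_) n _
      rw [hω c a, min_max_distrib_right, ENNReal.toReal_max]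
      · exact ne_top_of_le_ne_top (ENNReal.natCast_ne_top N) (min_le_right _ _)
      · exact ne_top_of_le_ne_top (ENNReal.natCast_ne_top N) (min_le_right _ _)
    · intro c
      exact ((hint a).sub (hint c)).pos_part
  have hratio : ∀ (N : ℕ), CM n (fun c : MS E =>
      (τE c / ∫⁻ ω, min (g ω c) ((N + 1 : ℕ) : ℝ≥0∞) ∂P).toReal) := by
    intro N
    have e : (fun c : MS E => (τE c / ∫⁻ ω, min (g ω c) ((N + 1 : ℕ) : ℝ≥0∞) ∂P).toReal)
        = fun c : MS E => (τE c).toReal
          * ((∫⁻ ω, min (g ω c) ((N + 1 : ℕ) : ℝ≥0∞) ∂P).toReal)⁻¹ := by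
      funext c
      rw [ENNReal.toReal_div, div_eq_mul_inv]
    rw [e]
    refine (hτCM n).mul (CM.inv (fun c => ?_) (fun n a => hqCM (N + 1) n a) n)
    exact ENNReal.toReal_pos (hposN N c) (hfinN (N + 1) c)
  refine CM.limit hratio fun c => ?_
  have hlim : Tendsto (fun N : ℕ => ∫⁻ ω, min (g ω c) ((N + 1 : ℕ) : ℝ≥0∞) ∂P) atTop
      (𝓝 (∫⁻ ω, g ω c ∂P)) := by
    refine lintegral_tendsto_of_tendsto_of_monotone (fun N => hgN (N + 1) c)
      (Eventually.of_forall fun ω => ?_) (Eventually.of_forall fun ω => ?_)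
    · intro N M hNM
      refine min_le_min_left _ ?_
      exact_mod_cast Nat.succ_le_succ hNM
    · have h1 : Tendsto (fun N : ℕ => ((N + 1 : ℕ) : ℝ≥0∞)) atTop (𝓝 ∞) :=
        ENNReal.tendsto_nat_nhds_top.comp (tendsto_add_atTop_nat 1)
      have h2 := (tendsto_const_nhds (x := g ω c)).min h1
      simpa using h2
  have h3 : Tendsto (fun N : ℕ => τE c / ∫⁻ ω, min (g ω c) ((N + 1 : ℕ) : ℝ≥0∞) ∂P) atTop
      (𝓝 (τE c / ∫⁻ ω, g ω c ∂P)) := ENNReal.Tendsto.const_div hlim (Or.inr (hτfin c))
  exact (ENNReal.tendsto_toReal (ENNReal.div_ne_top (hτfin c) (hpos c))).comp h3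

/-! ### Random closed sets -/

/-- A random closed set: a closed-valued, almost surely nonempty map all of whose hitting events
of Borel sets are measurable with respect to the completion of `P`. -/
structure IsRandomClosedSet {Ω : Type*} [MeasurableSpace Ω] [TopologicalSpace E]
    (P : Measure Ω) (X : Ω → Set E) : Prop where
  closed : ∀ ω, IsClosed (X ω)
  nonempty : ∀ᵐ ω ∂P, (X ω).Nonempty
  hit : ∀ B : Set E, MeasurableSet B → NullMeasurableSet {ω | (X ω ∩ B).Nonempty} P

/-- `s(A) = E [sup_{x ∈ X ∩ A} L(x)]`, a supremum over the empty set being `0`. -/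
noncomputable def s {Ω : Type*} [MeasurableSpace Ω] (P : Measure Ω) (X : Ω → Set E)
    (L : E → ℝ≥0) (A : Set E) : ℝ≥0∞ :=
  ∫⁻ ω, ⨆ x ∈ X ω ∩ A, (L x : ℝ≥0∞) ∂P

open scoped Classical in
/-- `t(A) = E [inf_{x ∈ X} L(x) 1{X ∩ A = ∅}]`. -/
noncomputable def t {Ω : Type*} [MeasurableSpace Ω] (P : Measure Ω) (X : Ω → Set E)
    (L : E → ℝ≥0) (A : Set E) : ℝ≥0∞ :=
  ∫⁻ ω, (if X ω ∩ A = ∅ then ⨅ x ∈ X ω, (L x : ℝ≥0∞) else 0) ∂P

open scoped Classical in
/-- The posterior upper probability `v_y(A) = s(A) / (s(A) + t(A))` (with the value `1` if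
`s(A) = ∞`, and with `0 / 0 = 0`). -/
noncomputable def vy {Ω : Type*} [MeasurableSpace Ω] (P : Measure Ω) (X : Ω → Set E)
    (L : E → ℝ≥0) (A : Set E) : ℝ :=
  if s P X L A = ∞ then 1 else (s P X L A / (s P X L A + t P X L A)).toReal

section RandomSet

variable {Ω : Type*} [MeasurableSpace Ω] [TopologicalSpace E] {P : Measure Ω}
  {X : Ω → Set E} {L : E → ℝ≥0}

lemma aem_of_Ioi {f : Ω → ℝ≥0∞} (h : ∀ r, NullMeasurableSet (f ⁻¹' Ioi r) P) :
    AEMeasurable f P := by
  have h1 : NullMeasurable f P := by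
    have h' : @Measurable (NullMeasurableSpace Ω P) ℝ≥0∞ _ _ (f : NullMeasurableSpace Ω P → ℝ≥0∞) :=
      measurable_of_Ioi (fun r => h r)
    exact h'
  exact h1.aemeasurable

lemma aem_of_Iio {f : Ω → ℝ≥0∞} (h : ∀ r, NullMeasurableSet (f ⁻¹' Iio r) P) :
    AEMeasurable f P := by
  have h1 : NullMeasurable f P := by
    have h' : @Measurable (NullMeasurableSpace Ω P) ℝ≥0∞ _ _ (f : NullMeasurableSpace Ω P → ℝ≥0∞) :=
      measurable_of_Iio (fun r => h r)
    exact h'
  exact h1.aemeasurable

lemma aemeasurable_sup (hX : IsRandomClosedSet P X) (hL : Measurable L) {A : Set E}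
    (hA : MeasurableSet A) : AEMeasurable (fun ω => ⨆ x ∈ X ω ∩ A, (L x : ℝ≥0∞)) P := by
  refine aem_of_Ioi fun r => ?_
  have e : (fun ω => ⨆ x ∈ X ω ∩ A, (L x : ℝ≥0∞)) ⁻¹' Ioi r
      = {ω | (X ω ∩ (A ∩ {x | r < (L x : ℝ≥0∞)})).Nonempty} := by
    ext ω
    simp only [mem_preimage, mem_Ioi, lt_iSup_iff, mem_ofPred_eq]
    constructor
    · rintro ⟨x, hx, h⟩
      exact ⟨x, hx.1, hx.2, h⟩
    · rintro ⟨x, h1, h2, h3⟩
      exact ⟨x, ⟨h1, h2⟩, h3⟩
  rw [e]
  exact hX.hit _ (hA.inter (measurableSet_lt measurable_const hL.coe_nnreal_ennreal))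

lemma aemeasurable_inf (hX : IsRandomClosedSet P X) (hL : Measurable L) :
    AEMeasurable (fun ω => ⨅ x ∈ X ω, (L x : ℝ≥0∞)) P := by
  refine aem_of_Iio fun r => ?_
  have e : (fun ω => ⨅ x ∈ X ω, (L x : ℝ≥0∞)) ⁻¹' Iio r
      = {ω | (X ω ∩ {x | (L x : ℝ≥0∞) < r}).Nonempty} := by
    ext ω
    simp only [mem_preimage, mem_Iio, iInf_lt_iff, mem_ofPred_eq]
    constructor
    · rintro ⟨x, hx, h⟩
      exact ⟨x, hx, h⟩
    · rintro ⟨x, h1, h2⟩
      exact ⟨x, h1, h2⟩
  rw [e]
  exact hX.hit _ (measurableSet_lt hL.coe_nnreal_ennreal measurable_const)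

omit [MeasurableSpace E] [TopologicalSpace E] in
lemma t_le (A : Set E) : t P X L A ≤ t P X L ∅ := by
  unfold t
  refine lintegral_mono fun ω => ?_
  simp only [inter_empty, if_true]
  split_ifs
  · exact le_rfl
  · exact zero_le

/-- The posterior upper probability is `n`-alternating for every `n ≥ 1`. -/
lemma vy_alternating [IsProbabilityMeasure P] (hX : IsRandomClosedSet P X) (hL : Measurable L)
    (hfin : t P X L ∅ ≠ ∞) {n : ℕ} (hn : 1 ≤ n) : IsAlternating n (vy P X L) := by
  classical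
  refine isAlternating_of_CM hn ?_
  have htfin : ∀ A, t P X L A ≠ ∞ := fun A => ne_top_of_le_ne_top hfin (t_le A)
  have hIm := aemeasurable_inf hX hL
  have htm : ∀ c : MS E, AEMeasurable (fun ω => if X ω ∩ (c : Set E) = ∅ then
      ⨅ x ∈ X ω, (L x : ℝ≥0∞) else 0) P := by
    intro c
    have e : (fun ω => if X ω ∩ (c : Set E) = ∅ then ⨅ x ∈ X ω, (L x : ℝ≥0∞) else 0)
        = ({ω | (X ω ∩ (c : Set E)).Nonempty}ᶜ).indicator (fun ω => ⨅ x ∈ X ω, (L x : ℝ≥0∞)) := by
      funext ω
      by_cases h : X ω ∩ (c : Set E) = ∅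
      · rw [if_pos h, indicator_of_mem]
        simpa [not_nonempty_iff_eq_empty] using h
      · rw [if_neg h, indicator_of_notMem]
        simpa [nonempty_iff_ne_empty] using h
    rw [e]
    exact hIm.indicator₀ (hX.hit _ c.2).compl
  by_cases h0 : t P X L ∅ = 0
  · -- the degenerate case
    have ht0 : ∀ A, t P X L A = 0 := fun A => le_antisymm ((t_le A).trans h0.le) zero_le
    have hσ : ∀ c a : MS E, s P X L ((c ⊔ a : MS E) : Set E) = 0 ↔
        s P X L (c : Set E) = 0 ∧ s P X L (a : Set E) = 0 := by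
      intro c a
      have hmono : ∀ {A B : Set E}, A ⊆ B → s P X L A ≤ s P X L B := by
        intro A B hAB
        refine lintegral_mono fun ω => ?_
        exact biSup_mono fun x hx => ⟨hx.1, hAB hx.2⟩
      constructor
      · intro h
        exact ⟨le_antisymm ((hmono (show (c : Set E) ⊆ ((c ⊔ a : MS E) : Set E) from
            subset_union_left)).trans h.le) zero_le,
          le_antisymm ((hmono (show (a : Set E) ⊆ ((c ⊔ a : MS E) : Set E) from
            subset_union_right)).trans h.le) zero_le⟩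
      · rintro ⟨h1, h2⟩
        refine le_antisymm ?_ zero_le
        rw [coe_sup']
        calc s P X L ((c : Set E) ∪ a) ≤ s P X L (c : Set E) + s P X L (a : Set E) := by
              unfold s
              rw [← lintegral_add_left' (aemeasurable_sup hX hL c.2)]
              refine lintegral_mono fun ω => ?_
              refine iSup₂_le fun x hx => ?_
              rcases hx.2 with h | h
              · exact (le_iSup₂ (f := fun x (_ : x ∈ X ω ∩ (c : Set E)) => (L x : ℝ≥0∞)) x
                  ⟨hx.1, h⟩).trans le_self_add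
              · exact (le_iSup₂ (f := fun x (_ : x ∈ X ω ∩ (a : Set E)) => (L x : ℝ≥0∞)) x
                  ⟨hx.1, h⟩).trans le_add_self
          _ = 0 := by rw [h1, h2, add_zero]
    have e : (fun c : MS E => 1 - vy P X L (c : Set E))
        = fun c : MS E => if s P X L (c : Set E) = 0 then (1 : ℝ) else 0 := by
      funext c
      unfold vy
      rw [ht0, add_zero]
      by_cases h1 : s P X L (c : Set E) = 0
      · simp [h1]
      · by_cases h2 : s P X L (c : Set E) = ∞
        · simp [h2]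
        · rw [if_neg h2, if_neg h1, ENNReal.div_self h1 h2]
          simp
    rw [e]
    exact CM_zero (σ := fun c : MS E => s P X L (c : Set E)) hσ n zero_le_one
  · -- the main case
    set g : Ω → MS E → ℝ≥0∞ := fun ω c => (⨆ x ∈ X ω ∩ (c : Set E), (L x : ℝ≥0∞))
      + (if X ω ∩ (c : Set E) = ∅ then ⨅ x ∈ X ω, (L x : ℝ≥0∞) else 0) with hgdef
    have hsum : ∀ c : MS E, ∫⁻ ω, g ω c ∂P = s P X L (c : Set E) + t P X L (c : Set E) := by
      intro c
      rw [hgdef]
      simp only
      rw [lintegral_add_left' (aemeasurable_sup hX hL c.2)]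
      rfl
    have hge : ∀ᵐ ω ∂P, ∀ c : MS E, (⨅ x ∈ X ω, (L x : ℝ≥0∞)) ≤ g ω c := by
      refine hX.nonempty.mono fun ω hω c => ?_
      by_cases h : X ω ∩ (c : Set E) = ∅
      · simp only [hgdef, if_pos h]
        exact le_add_self
      · obtain ⟨x, hx⟩ := nonempty_iff_ne_empty.2 h
        refine le_trans ?_ le_self_add
        exact (iInf₂_le x hx.1).trans
          (le_iSup₂ (f := fun x (_ : x ∈ X ω ∩ (c : Set E)) => (L x : ℝ≥0∞)) x hx)
    have hgmax : ∀ᵐ ω ∂P, ∀ c a, g ω (c ⊔ a) = max (g ω c) (g ω a) := by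
      filter_upwards [hX.nonempty, hge] with ω hω hgeω c a
      have hsup : (⨆ x ∈ X ω ∩ ((c ⊔ a : MS E) : Set E), (L x : ℝ≥0∞))
          = (⨆ x ∈ X ω ∩ (c : Set E), (L x : ℝ≥0∞)) ⊔ ⨆ x ∈ X ω ∩ (a : Set E), (L x : ℝ≥0∞) := by
        rw [coe_sup', inter_union_distrib_left, iSup_union]
      by_cases h1 : X ω ∩ (c : Set E) = ∅ <;> by_cases h2 : X ω ∩ (a : Set E) = ∅
      · have h3 : X ω ∩ ((c ⊔ a : MS E) : Set E) = ∅ := by
          rw [coe_sup', inter_union_distrib_left, h1, h2, empty_union]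
        simp only [hgdef, h1, h2, h3]
        simp
      · have h3 : ¬ X ω ∩ ((c ⊔ a : MS E) : Set E) = ∅ := by
          rw [coe_sup', inter_union_distrib_left, h1, empty_union]; exact h2
        have h4 := hgeω a
        have h5 : g ω c = ⨅ x ∈ X ω, (L x : ℝ≥0∞) := by
          simp only [hgdef, h1]; simp
        have h6 : g ω a = ⨆ x ∈ X ω ∩ (a : Set E), (L x : ℝ≥0∞) := by
          simp only [hgdef, if_neg h2, add_zero]
        have h7 : g ω (c ⊔ a) = ⨆ x ∈ X ω ∩ ((c ⊔ a : MS E) : Set E), (L x : ℝ≥0∞) := by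
          simp only [hgdef, if_neg h3, add_zero]
        rw [h7, hsup, h1, ← h6, h5, max_eq_right h4]
        simp
      · have h3 : ¬ X ω ∩ ((c ⊔ a : MS E) : Set E) = ∅ := by
          rw [coe_sup', inter_union_distrib_left, h2, union_empty]; exact h1
        have h4 := hgeω c
        have h5 : g ω a = ⨅ x ∈ X ω, (L x : ℝ≥0∞) := by
          simp only [hgdef, h2]; simp
        have h6 : g ω c = ⨆ x ∈ X ω ∩ (c : Set E), (L x : ℝ≥0∞) := by
          simp only [hgdef, if_neg h1, add_zero]
        have h7 : g ω (c ⊔ a) = ⨆ x ∈ X ω ∩ ((c ⊔ a : MS E) : Set E), (L x : ℝ≥0∞) := by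
          simp only [hgdef, if_neg h3, add_zero]
        rw [h7, hsup, h2, ← h6, h5, max_eq_left h4]
        simp
      · have h3 : ¬ X ω ∩ ((c ⊔ a : MS E) : Set E) = ∅ := by
          rw [coe_sup', inter_union_distrib_left]
          intro h
          exact h1 (union_empty_iff.1 h).1
        have h5 : g ω a = ⨆ x ∈ X ω ∩ (a : Set E), (L x : ℝ≥0∞) := by
          simp only [hgdef, if_neg h2, add_zero]
        have h6 : g ω c = ⨆ x ∈ X ω ∩ (c : Set E), (L x : ℝ≥0∞) := by
          simp only [hgdef, if_neg h1, add_zero]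
        have h7 : g ω (c ⊔ a) = ⨆ x ∈ X ω ∩ ((c ⊔ a : MS E) : Set E), (L x : ℝ≥0∞) := by
          simp only [hgdef, if_neg h3, add_zero]
        rw [h7, hsup, h5, h6]
    have hpos : ∀ c, ∫⁻ ω, g ω c ∂P ≠ 0 := by
      intro c hc
      apply h0
      refine le_antisymm ?_ zero_le
      rw [← hc]
      unfold t
      refine lintegral_mono_ae (hge.mono fun ω hω => ?_)
      simp only [inter_empty, if_true]
      exact hω c
    have hcore := core (P := P) X (fun ω => ⨅ x ∈ X ω, (L x : ℝ≥0∞)) g hIm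
      (by
        have e : t P X L ∅ = ∫⁻ ω, ⨅ x ∈ X ω, (L x : ℝ≥0∞) ∂P := by
          unfold t; simp
        rw [← e]; exact hfin)
      (fun c => hX.hit _ c.2)
      (fun c => (aemeasurable_sup hX hL c.2).add (htm c)) hgmax hpos n
    have e : (fun c : MS E => 1 - vy P X L (c : Set E))
        = fun c : MS E => ((∫⁻ ω, (if (X ω ∩ (c : Set E)).Nonempty then 0 else
          ⨅ x ∈ X ω, (L x : ℝ≥0∞)) ∂P) / (∫⁻ ω, g ω c ∂P)).toReal := by
      funext c
      have et : (∫⁻ ω, (if (X ω ∩ (c : Set E)).Nonempty then 0 else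
          ⨅ x ∈ X ω, (L x : ℝ≥0∞)) ∂P) = t P X L (c : Set E) := by
        unfold t
        refine lintegral_congr fun ω => ?_
        by_cases h : X ω ∩ (c : Set E) = ∅
        · rw [if_pos h, if_neg (not_nonempty_iff_eq_empty.2 h)]
        · rw [if_neg h, if_pos (nonempty_iff_ne_empty.2 h)]
      rw [et, hsum]
      have hne := hpos c
      rw [hsum] at hne
      unfold vy
      by_cases h2 : s P X L (c : Set E) = ∞
      · rw [if_pos h2, h2]
        simp
      · rw [if_neg h2, ENNReal.toReal_div, ENNReal.toReal_div, ENNReal.toReal_add h2 (htfin _)]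
        have h3 : 0 < (s P X L (c : Set E)).toReal + (t P X L (c : Set E)).toReal := by
          rw [← ENNReal.toReal_add h2 (htfin _)]
          exact ENNReal.toReal_pos hne (ENNReal.add_ne_top.2 ⟨h2, htfin _⟩)
        field_simp
        ring
    rw [e]
    exact hcore

end RandomSet

/-! ### The contamination model -/

/-- `m(A) = ∫_A L dP`. -/
noncomputable def m (P : Measure E) (L : E → ℝ≥0) (A : Set E) : ℝ≥0∞ := ∫⁻ x in A, (L x : ℝ≥0∞) ∂P

/-- `M(A) = sup_{x ∈ A} L(x)`, with `M(∅) = 0`. -/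
noncomputable def M (L : E → ℝ≥0) (A : Set E) : ℝ≥0∞ := ⨆ x ∈ A, (L x : ℝ≥0∞)

open scoped Classical in
/-- The posterior upper probability in the contamination model,
`((1 - ε) m(A) + ε M(A)) / ((1 - ε) m(E) + ε M(A))` (with the value `1` if `M(A) = ∞`, and with
`0 / 0 = 0`). -/
noncomputable def vc (ε : ℝ≥0) (P : Measure E) (L : E → ℝ≥0) (A : Set E) : ℝ :=
  if M L A = ∞ then 1 else
    ((((1 - ε : ℝ≥0) : ℝ≥0∞) * m P L A + ε * M L A) /
      (((1 - ε : ℝ≥0) : ℝ≥0∞) * m P L univ + ε * M L A)).toReal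

lemma M_sup (L : E → ℝ≥0) (c a : MS E) : M L ((c ⊔ a : MS E) : Set E) = max (M L c) (M L a) := by
  unfold M
  rw [coe_sup', iSup_union]

/-- The posterior upper probability of the contamination model is `n`-alternating for every
`n ≥ 1`. -/
lemma vc_alternating {ε : ℝ≥0} (hε0 : 0 < ε) (hε1 : ε < 1) (P : Measure E)
    [IsProbabilityMeasure P] {L : E → ℝ≥0} (hL : Measurable L) (hfin : m P L univ ≠ ∞) {n : ℕ}
    (hn : 1 ≤ n) : IsAlternating n (vc ε P L) := by
  classical
  refine isAlternating_of_CM hn ?_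
  set δ : ℝ≥0∞ := ((1 - ε : ℝ≥0) : ℝ≥0∞) with hδ
  have hδ0 : δ ≠ 0 := by
    rw [hδ]
    have : (0 : ℝ≥0) < 1 - ε := tsub_pos_of_lt hε1
    exact_mod_cast this.ne'
  have hδt : δ ≠ ∞ := ENNReal.coe_ne_top
  have hε0' : (ε : ℝ≥0∞) ≠ 0 := by exact_mod_cast hε0.ne'
  have hmle : ∀ A : Set E, m P L A ≤ m P L univ := fun A => lintegral_mono_set (subset_univ A)
  by_cases h0 : m P L univ = 0
  · have hm0 : ∀ A, m P L A = 0 := fun A => le_antisymm ((hmle A).trans h0.le) zero_le
    have e : (fun c : MS E => 1 - vc ε P L (c : Set E))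
        = fun c : MS E => if M L (c : Set E) = 0 then (1 : ℝ) else 0 := by
      funext c
      unfold vc
      rw [hm0, hm0, mul_zero, zero_add]
      by_cases h1 : M L (c : Set E) = 0
      · simp [h1]
      · by_cases h2 : M L (c : Set E) = ∞
        · simp [h2]
        · rw [if_neg h2, if_neg h1, ENNReal.div_self (mul_ne_zero hε0' h1)
            (ENNReal.mul_ne_top ENNReal.coe_ne_top h2)]
          simp
    rw [e]
    refine CM_zero (σ := fun c : MS E => M L (c : Set E)) (fun c a => ?_) n zero_le_one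
    simp only [M_sup]
    simp
  · set g : E → MS E → ℝ≥0∞ := fun _ c => δ * m P L univ + ε * M L (c : Set E) with hg
    have hgc : ∀ c : MS E, ∫⁻ x, g x c ∂P = δ * m P L univ + ε * M L (c : Set E) := by
      intro c
      simp [hg]
    have hpos : ∀ c : MS E, ∫⁻ x, g x c ∂P ≠ 0 := by
      intro c
      rw [hgc]
      intro h
      exact (mul_ne_zero hδ0 h0) (add_eq_zero.1 h).1
    have hcore := core (P := P) (fun x => {x}) (fun x => δ * (L x : ℝ≥0∞)) g
      (hL.coe_nnreal_ennreal.const_mul _).aemeasurable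
      (by
        rw [lintegral_const_mul _ hL.coe_nnreal_ennreal]
        refine ENNReal.mul_ne_top hδt ?_
        have : m P L univ = ∫⁻ x, (L x : ℝ≥0∞) ∂P := by unfold m; simp
        rw [← this]; exact hfin)
      (fun c => by
        have : {x : E | (({x} : Set E) ∩ (c : Set E)).Nonempty} = (c : Set E) := by
          ext x; simp
        rw [this]
        exact c.2.nullMeasurableSet)
      (fun c => aemeasurable_const)
      (Eventually.of_forall fun x c a => by
        simp only [hg, M_sup]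
        rw [mul_max, max_add_add_left])
      hpos n
    have e : (fun c : MS E => 1 - vc ε P L (c : Set E))
        = fun c : MS E => ((∫⁻ x, (if (({x} : Set E) ∩ (c : Set E)).Nonempty then 0 else
          δ * (L x : ℝ≥0∞)) ∂P) / (∫⁻ x, g x c ∂P)).toReal := by
      funext c
      have et : (∫⁻ x, (if (({x} : Set E) ∩ (c : Set E)).Nonempty then 0 else
          δ * (L x : ℝ≥0∞)) ∂P) = δ * m P L (c : Set E)ᶜ := by
        unfold m
        rw [← lintegral_const_mul _ hL.coe_nnreal_ennreal,
          ← lintegral_indicator c.2.compl]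
        refine lintegral_congr fun x => ?_
        by_cases h : x ∈ (c : Set E)
        · rw [if_pos (by simpa using h), indicator_of_notMem (by simpa using h)]
        · rw [if_neg (by simpa using h), indicator_of_mem (by simpa using h)]
      rw [et, hgc]
      have hne := hpos c
      rw [hgc] at hne
      have hsplit : m P L univ = m P L (c : Set E) + m P L (c : Set E)ᶜ := by
        unfold m
        rw [lintegral_add_compl _ c.2, Measure.restrict_univ]
      unfold vc
      rw [← hδ]
      by_cases h2 : M L (c : Set E) = ∞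
      · rw [if_pos h2, h2, ENNReal.mul_top hε0', add_top, ENNReal.div_top]
        simp
      · have hA : δ * m P L univ ≠ ∞ := ENNReal.mul_ne_top hδt hfin
        have hB : (ε : ℝ≥0∞) * M L (c : Set E) ≠ ∞ := ENNReal.mul_ne_top ENNReal.coe_ne_top h2
        have hC : δ * m P L (c : Set E) ≠ ∞ :=
          ENNReal.mul_ne_top hδt (ne_top_of_le_ne_top hfin (hmle _))
        have hC' : δ * m P L (c : Set E)ᶜ ≠ ∞ :=
          ENNReal.mul_ne_top hδt (ne_top_of_le_ne_top hfin (hmle _))
        have hsp : (δ * m P L univ).toReal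
            = (δ * m P L (c : Set E)).toReal + (δ * m P L (c : Set E)ᶜ).toReal := by
          rw [hsplit, mul_add, ENNReal.toReal_add hC hC']
        rw [if_neg h2, ENNReal.toReal_div, ENNReal.toReal_div, ENNReal.toReal_add hC hB,
          ENNReal.toReal_add hA hB]
        have h3 : 0 < (δ * m P L univ).toReal + ((ε : ℝ≥0∞) * M L (c : Set E)).toReal := by
          rw [← ENNReal.toReal_add hA hB]
          exact ENNReal.toReal_pos hne (ENNReal.add_ne_top.2 ⟨hA, hB⟩)
        rw [hsp] at h3 ⊢
        field_simp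
        ring
    rw [e]
    exact hcore

/-- `N₁ = N₂ = ∞`: for every random closed set `X` and every likelihood `L` the posterior upper
probability `v_y = s / (s + t)` is `n`-alternating for every `n ≥ 2` (so it is completely
alternating), and the same is true for the posterior upper probability of the
`ε`-contamination model, for every `ε`, every prior and every likelihood. -/
theorem result.{u, v} :
    (∀ (Ω : Type u) (E : Type v) (_ : MeasurableSpace Ω) (_ : TopologicalSpace E)
      (_ : LocallyCompactSpace E) (_ : SecondCountableTopology E) (_ : T2Space E)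
      (_ : MeasurableSpace E) (_ : BorelSpace E) (P : Measure Ω) (_ : IsProbabilityMeasure P)
      (X : Ω → Set E) (_ : IsRandomClosedSet P X) (L : E → ℝ≥0) (_ : Measurable L)
      (_ : t P X L ∅ ≠ ∞) (n : ℕ), 2 ≤ n → IsAlternating n (vy P X L)) ∧
    (∀ (E : Type v) (_ : TopologicalSpace E)
      (_ : LocallyCompactSpace E) (_ : SecondCountableTopology E) (_ : T2Space E)
      (_ : MeasurableSpace E) (_ : BorelSpace E) (ε : ℝ≥0) (_ : 0 < ε) (_ : ε < 1)
      (P : Measure E) (_ : IsProbabilityMeasure P) (L : E → ℝ≥0) (_ : Measurable L)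
      (_ : m P L univ ≠ ∞) (n : ℕ), 2 ≤ n → IsAlternating n (vc ε P L)) := by
  constructor
  · intro Ω E _ _ _ _ _ _ _ P _ X hX L hL hfin n hn
    exact vy_alternating hX hL hfin (by omega)
  · intro E _ _ _ _ _ _ ε h0 h1 P _ L hL hfin n hn
    exact vc_alternating h0 h1 P hL hfin (by omega)

end Pool.Agent.Results.MP_bae362_pr.CompletelyAlternating
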